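import Pool.Agent.W2helper22.MG.Stm
import Pool.Agent.W2helper22.AL.Asm
import Pool.Agent.W2helper68.AL.THR

/-! Project MG, piece SLICE: dual rail simulation of a circuit on a slice. -/

set_option autoImplicit false

namespace Pool.Agent.W2helper85.MG

open Finset Pool.Agent.W2helper22.AL Pool.Agent.W2helper22.MG
open Pool.Agent.W2helper86.LG hiding wt

section

variable {m : ℕ}

/-- the functions of the lines below `k` and their negations are in `F` -/
def Rails (X : Set (Fin m → Bool)) (C : Circuit m) (k : ℕ)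
    (F : Set (((Fin m → Bool) → Bool) × ℕ)) : Prop :=
  ∀ j < k, ∃ f g : (Fin m → Bool) → Bool,
    (f, 0) ∈ F ∧ (g, 0) ∈ F ∧ ∀ x ∈ X, f x = C.val x j ∧ g x = !(C.val x j)

lemma rails_succ {X : Set (Fin m → Bool)} {C : Circuit m} {k : ℕ}
    {F F' : Set (((Fin m → Bool) → Bool) × ℕ)} (hR : Rails X C k F) (hFF : F ⊆ F')
    (f g : (Fin m → Bool) → Bool) (hf : (f, 0) ∈ F') (hg : (g, 0) ∈ F')
    (hfg : ∀ x ∈ X, f x = C.val x k ∧ g x = !(C.val x k)) : Rails X C (k + 1) F' := by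
  intro j hj
  rcases Nat.lt_succ_iff_lt_or_eq.mp hj with h | rfl
  · obtain ⟨f', g', h1, h2, h3⟩ := hR j h
    exact ⟨f', g', hFF h1, hFF h2, h3⟩
  · exact ⟨f, g, hf, hg, hfg⟩

lemma rails_step {X : Set (Fin m → Bool)} {nx : Fin m → (Fin m → Bool) → Bool}
    (hnx : ∀ p, ∀ x ∈ X, nx p x = !(x p)) {C : Circuit m} {k s : ℕ} {c : ℕ → ℕ}
    {F : Set (((Fin m → Bool) → Bool) × ℕ)} (hk : k < C.len)
    (hB : ∀ b : Bool, ((fun _ => b : (Fin m → Bool) → Bool), 0) ∈ F)
    (hI : ∀ p, ((fun x => x p : (Fin m → Bool) → Bool), 0) ∈ F) (hN : ∀ p, (nx p, 0) ∈ F)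
    (hR : Rails X C k F) (hA : Av 0 s c F) :
    ∃ F', F ⊆ F' ∧ Av 0 (s + 2 * (C.gate k).weight) c F' ∧ Rails X C (k + 1) F' := by
  have hlt := C.below k hk
  cases hC : C.gate k with
  | const b =>
    refine ⟨F, subset_rfl, by simpa [Gate.weight] using hA, rails_succ hR subset_rfl (fun _ => b)
      (fun _ => !b) (hB b) (hB (!b)) (fun x _ => ?_)⟩
    have e : C.val x k = b := by rw [C.val_eq x hk, hC]; rfl
    rw [e]
    exact ⟨rfl, rfl⟩
  | inp i =>
    refine ⟨F, subset_rfl, by simpa [Gate.weight] using hA, rails_succ hR subset_rfl (fun x => x i)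
      (nx i) (hI i) (hN i) (fun x hx => ?_)⟩
    have e : C.val x k = x i := by rw [C.val_eq x hk, hC]; rfl
    rw [e]
    exact ⟨rfl, hnx i x hx⟩
  | not a =>
    rw [hC] at hlt
    have hlt' : a < k := hlt
    obtain ⟨f, g, h1, h2, h3⟩ := hR a hlt'
    refine ⟨F, subset_rfl, by simpa [Gate.weight] using hA, rails_succ hR subset_rfl g f h2 h1
      (fun x hx => ?_)⟩
    have e : C.val x k = !(C.val x a) := by rw [C.val_eq x hk, hC]; rfl
    obtain ⟨h4, h5⟩ := h3 x hx
    rw [e, h4, h5]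
    simp
  | and a b =>
    rw [hC] at hlt
    have hlt' : a < k ∧ b < k := hlt
    obtain ⟨f, g, h1, h2, h3⟩ := hR a hlt'.1
    obtain ⟨f', g', h1', h2', h3'⟩ := hR b hlt'.2
    refine ⟨_, fun q hq => Or.inr (Or.inr hq), (hA.and h1 h1' le_rfl).or (Or.inr h2) (Or.inr h2') le_rfl,
      rails_succ hR (fun q hq => Or.inr (Or.inr hq)) (fun x => f x && f' x) (fun x => g x || g' x)
        (Or.inr (Or.inl rfl)) (Or.inl rfl) (fun x hx => ?_)⟩
    have e : C.val x k = (C.val x a && C.val x b) := by rw [C.val_eq x hk, hC]; rfl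
    obtain ⟨h4, h5⟩ := h3 x hx
    obtain ⟨h4', h5'⟩ := h3' x hx
    simp only [e, h4, h5, h4', h5', Bool.not_and, and_self]
  | or a b =>
    rw [hC] at hlt
    have hlt' : a < k ∧ b < k := hlt
    obtain ⟨f, g, h1, h2, h3⟩ := hR a hlt'.1
    obtain ⟨f', g', h1', h2', h3'⟩ := hR b hlt'.2
    refine ⟨_, fun q hq => Or.inr (Or.inr hq), (hA.or h1 h1' le_rfl).and (Or.inr h2) (Or.inr h2') le_rfl,
      rails_succ hR (fun q hq => Or.inr (Or.inr hq)) (fun x => f x || f' x) (fun x => g x && g' x)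
        (Or.inr (Or.inl rfl)) (Or.inl rfl) (fun x hx => ?_)⟩
    have e : C.val x k = (C.val x a || C.val x b) := by rw [C.val_eq x hk, hC]; rfl
    obtain ⟨h4, h5⟩ := h3 x hx
    obtain ⟨h4', h5'⟩ := h3' x hx
    simp only [e, h4, h5, h4', h5', Bool.not_or, and_self]

/-- the simulation on the set `X`; the thresholds stay available -/
theorem dualW (X : Set (Fin m → Bool)) (nx : Fin m → (Fin m → Bool) → Bool)
    (hnx : ∀ p, ∀ x ∈ X, nx p x = !(x p)) (C : Circuit m) {s : ℕ} {c : ℕ → ℕ}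
    {F : Set (((Fin m → Bool) → Bool) × ℕ)}
    (hB : ∀ b : Bool, ((fun _ => b : (Fin m → Bool) → Bool), 0) ∈ F)
    (hI : ∀ p, ((fun x => x p : (Fin m → Bool) → Bool), 0) ∈ F) (hN : ∀ p, (nx p, 0) ∈ F)
    (hA : Av 0 s c F) :
    ∃ (F' : Set (((Fin m → Bool) → Bool) × ℕ)) (f : (Fin m → Bool) → Bool), F ⊆ F' ∧ (f, 0) ∈ F' ∧
      Av 0 (s + 2 * C.size) c F' ∧ ∀ x ∈ X, f x = C.eval x := by
  have key : ∀ k ≤ C.len, ∃ F', F ⊆ F' ∧ Av 0 (s + 2 * ∑ i ∈ range k, (C.gate i).weight) c F' ∧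
      Rails X C k F' := by
    intro k
    induction k with
    | zero =>
      intro _
      exact ⟨F, subset_rfl, by simpa using hA, fun j hj => absurd hj (Nat.not_lt_zero _)⟩
    | succ k ih =>
      intro hk
      obtain ⟨F', h0, h1, h2⟩ := ih (Nat.le_of_succ_le hk)
      obtain ⟨F'', h3, h4, h5⟩ := rails_step hnx (Nat.lt_of_succ_le hk) (fun b => h0 (hB b))
        (fun p => h0 (hI p)) (fun p => h0 (hN p)) h2 h1
      refine ⟨F'', h0.trans h3, ?_, h5⟩
      rw [sum_range_succ, Nat.mul_add, ← Nat.add_assoc]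
      exact h4
  obtain ⟨F', h0, h1, h2⟩ := key C.len le_rfl
  obtain ⟨f, g, h3, -, h5⟩ := h2 C.out C.out_lt
  exact ⟨F', f, h0, h3, h1, fun x hx => (h5 x hx).1⟩

end

lemma wt_eq {m : ℕ} (x : Fin m → Bool) :
    (Finset.univ : Finset (Fin m)).toList.countP (fun p => x p) = wt x := by
  unfold wt
  rw [Finset.card_def, Finset.filter_val, ← Multiset.countP_eq_card_filter, ← Finset.coe_toList,
    Multiset.coe_countP]
  congr 1
  funext p
  simp

lemma thr_erase {m k : ℕ} (p : Fin m) (x : Fin m → Bool) (hx : wt x = k) :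
    thr ((Finset.univ : Finset (Fin m)).toList.erase p) k x = !(x p) := by
  have hp : p ∈ (Finset.univ : Finset (Fin m)).toList := by rw [Finset.mem_toList]; exact mem_univ _
  have h1 := (List.perm_cons_erase hp).countP_eq (fun p => x p)
  rw [wt_eq, hx, List.countP_cons] at h1
  unfold thr
  cases hxp : x p with
  | false =>
    rw [hxp] at h1
    simp only [Bool.false_eq_true, if_false, add_zero] at h1
    simp only [Bool.not_false, decide_eq_true_eq]
    omega
  | true =>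
    rw [hxp] at h1
    simp only [if_true] at h1
    simp only [Bool.not_true, decide_eq_false_iff_not]
    omega

theorem slice : P_SLICE := by
  intro m k C
  obtain ⟨E, hE⟩ : ∃ E, E = (Finset.univ : Finset (Fin m)).toList := ⟨_, rfl⟩
  have hlen : E.length = m := by rw [hE, Finset.length_toList, Finset.card_univ, Fintype.card_fin]
  have hmem : ∀ p, p ∈ E := fun p => by rw [hE, Finset.mem_toList]; exact mem_univ _
  have a1 := Pool.Agent.W2helper68.AL.thr_ok (Fin m) 0 0 (fun _ => 0) ∅ E Av.empty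
  have a2 := thr_many Pool.Agent.W2helper68.AL.thr_ok (fun p => E.erase p) m
    (fun p => (List.length_erase_le).trans hlen.le) a1 E
  have a3 := inp_many a2 E
  have a4 := (a3.const true).const false
  obtain ⟨F', f, h0, h1, h2, h3⟩ := dualW {x | wt x = k} (fun p => thr (E.erase p) k)
    (fun p x hx => by rw [hE]; exact thr_erase p x hx) C
    (by
      intro b
      cases b with
      | true => exact Or.inr (Or.inl rfl)
      | false => exact Or.inl rfl)
    (fun p => Or.inr (Or.inr (Or.inr ⟨p, hmem p, rfl⟩)))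
    (fun p => Or.inr (Or.inr (Or.inl (Or.inr ⟨p, hmem p, k, rfl⟩)))) a4
  have hT : ∀ j, (thr E j, 0) ∈ F' := fun j =>
    h0 (Or.inr (Or.inr (Or.inl (Or.inl (Or.inr ⟨j, rfl⟩)))))
  have a5 := (h2.and (hT k) h1 le_rfl).or (Or.inr (hT (k + 1))) (Or.inl rfl) le_rfl
  refine ⟨fun x => thr E (k + 1) x || (thr E k x && f x), ?_, fun x => ?_⟩
  · refine a5.mono ?_ (fun _ => le_rfl) (fun q hq => ⟨0, Nat.zero_le _, Or.inl ?_⟩)
    · rw [hlen]
      have e2 : (m + 2) ^ 3 = m ^ 3 + 6 * m ^ 2 + 12 * m + 8 := by ring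
      rw [e2]
      ring_nf
      nlinarith [Nat.zero_le (m ^ 2), Nat.zero_le (m ^ 3)]
    · obtain ⟨q1, q2⟩ := q
      obtain ⟨h4, h5⟩ := hq
      have h6 : q1 = fun x => thr E (k + 1) x || (thr E k x && f x) := h4
      rw [h6]
  · have hw : E.countP (fun p => x p) = wt x := by rw [hE]; exact wt_eq x
    simp only [thr, hw, Bool.or_eq_true, Bool.and_eq_true, decide_eq_true_eq]
    constructor
    · rintro (h | ⟨h, h'⟩)
      · exact Or.inl h
      · rcases Nat.lt_or_ge k (wt x) with h4 | h4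
        · exact Or.inl h4
        · have h5 : wt x = k := le_antisymm h4 h
          exact Or.inr ⟨h5, by rw [← h3 x h5]; exact h'⟩
    · rintro (h | ⟨h, h'⟩)
      · exact Or.inl h
      · exact Or.inr ⟨h.ge, by rw [h3 x h]; exact h'⟩

end Pool.Agent.W2helper85.MG
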